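import Mathlib

/-!
# Stmt : the definitions of the problem

The space `M_m` of real symmetric `m × m` matrices is `Ix m → ℝ` (entries `x_ij`, `i ≤ j`) with
Lebesgue measure.
-/

open MeasureTheory ENNReal

noncomputable section

namespace SiegelPoisson

/-- the index set of the coordinates: pairs `(i,j)` with `i ≤ j` -/
abbrev Ix (m : ℕ) : Type := {p : Fin m × Fin m // p.1 ≤ p.2}

/-- the symmetric matrix with the entries `x_ij`, `i ≤ j` -/
def sym {m : ℕ} (x : Ix m → ℝ) : Matrix (Fin m) (Fin m) ℝ :=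
  Matrix.of fun i j => x ⟨(min i j, max i j), min_le_max⟩

/-- `|det (x + i y)|` -/
def absDet {m : ℕ} (x : Ix m → ℝ) (y : Matrix (Fin m) (Fin m) ℝ) : ℝ :=
  ‖((sym x).map Complex.ofReal + Complex.I • y.map Complex.ofReal).det‖

/-- `(det y / |det (x + i y)|^2)^((m+1)/2)` -/
def kern {m : ℕ} (y : Matrix (Fin m) (Fin m) ℝ) (x : Ix m → ℝ) : ℝ :=
  (y.det / absDet x y ^ 2) ^ (((m : ℝ) + 1) / 2)

/-- the normalising constant `c_m` (the integral of `kern y` does not depend on `y`) -/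
def cm (m : ℕ) : ℝ := (∫ x : Ix m → ℝ, kern 1 x)⁻¹

/-- the Poisson kernel `P_y(x)` -/
def poisson {m : ℕ} (y : Matrix (Fin m) (Fin m) ℝ) (x : Ix m → ℝ) : ℝ := cm m * kern y x

/-- the Poisson integral `u(x,y) = (f * P_y)(x)` -/
def u {m : ℕ} (f : (Ix m → ℝ) → ℝ) (x : Ix m → ℝ) (y : Matrix (Fin m) (Fin m) ℝ) : ℝ :=
  ∫ t, f (x - t) * poisson y t

/-- the unrestricted maximal function `M_U f(x) = sup |u(x,y)|` over the diagonal positive definite
matrices `y`, with values in `[0,∞]` -/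
def MU {m : ℕ} (f : (Ix m → ℝ) → ℝ) (x : Ix m → ℝ) : ℝ≥0∞ :=
  ⨆ (d : Fin m → ℝ) (_ : ∀ i, 0 < d i), ENNReal.ofReal |u f x (Matrix.diagonal d)|

end SiegelPoisson
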