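import Pool.Agent.Work.MP_93d592_an.KerF

/-!
# MP_93d592_an : kernel estimates (hub)

`Zyg.Ix m` = positions `i ≤ j`; `Zyg.sym x` the symmetric matrix; `Zyg.cmat X y = X + i diag y`;
`Zyg.Dn x = |det (x + i)|` (`one_le_Dn`, `Dn_continuous`, `entry_le_Dn`).

* (K1) `lint_Dn`   : `p > m → ∫⁻ x, ofReal (Dn x ^ (-p)) < ⊤`
* (K2) `Dn_add_le` : `(∀ c, |h c| ≤ 1) → Dn (x + h) ≤ (m! (1+m)^m) * Dn x`
* (K3) `det_scale`, `pk_scale`, `pk_le` : `pk x y = det y / |det (x + i y)|^2`,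
  `pk x (g^2 e) ≤ C / ((∏ g)^2 Dn (scl g x)^2)` for `1 ≤ e ≤ 4`, `scl g x = G⁻¹ x G⁻¹`
* (K4) `sum_log` (and `sum_Dn`) : summability over integer points; `cube`, `cube_vol`, `Dn_cube`
-/
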