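import Mathlib

/-!
# MP_93d592_an : kernel estimates, part A (resolvent bounds)

`sym x + i`, `x` real symmetric.
-/

open Matrix Complex

namespace Zyg

/-- positions of the entries `x_ij`, `i ≤ j` -/
abbrev Ix (m : ℕ) : Type := {p : Fin m × Fin m // p.1 ≤ p.2}

/-- the symmetric matrix with entries `x` -/
def sym {m : ℕ} (x : Ix m → ℝ) : Matrix (Fin m) (Fin m) ℝ :=
  Matrix.of fun i j => x ⟨(min i j, max i j), min_le_max⟩

theorem sym_symm {m : ℕ} (x : Ix m → ℝ) : (sym x)ᵀ = sym x := by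
  ext i j
  simp [sym, min_comm, max_comm]

theorem sym_add {m : ℕ} (x y : Ix m → ℝ) : sym (x + y) = sym x + sym y := by
  ext i j; simp [sym]

/-- `x + i y` with `x` real symmetric and `y` diagonal -/
noncomputable def cmat {m : ℕ} (X : Matrix (Fin m) (Fin m) ℝ) (y : Fin m → ℝ) :
    Matrix (Fin m) (Fin m) ℂ :=
  X.map (fun t => (t : ℂ)) + Complex.I • Matrix.diagonal (fun k => (y k : ℂ))

theorem im_quad {m : ℕ} (X : Matrix (Fin m) (Fin m) ℝ) (hX : Xᵀ = X) (y : Fin m → ℝ)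
    (u : Fin m → ℂ) :
    (∑ k, star (u k) * (cmat X y *ᵥ u) k).im = ∑ k, y k * Complex.normSq (u k) := by
  have h1 : ∀ k, (cmat X y *ᵥ u) k = (∑ j, (X k j : ℂ) * u j) + Complex.I * (y k * u k) := by
    intro k
    simp only [cmat, Matrix.add_mulVec, Pi.add_apply, Matrix.smul_mulVec, Pi.smul_apply,
      Matrix.mulVec_diagonal, smul_eq_mul]
    rfl
  have h2 : (∑ k, star (u k) * ∑ j, (X k j : ℂ) * u j).im = 0 := by
    have h3 : star (∑ k, star (u k) * ∑ j, (X k j : ℂ) * u j)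
        = ∑ k, star (u k) * ∑ j, (X k j : ℂ) * u j := by
      simp only [star_sum, star_mul', star_star, Finset.mul_sum]
      rw [Finset.sum_comm]
      refine Finset.sum_congr rfl fun j _ => Finset.sum_congr rfl fun k _ => ?_
      have h4 : X k j = X j k := by
        have := congrFun (congrFun hX k) j
        simpa [Matrix.transpose_apply] using this.symm
      have h5 : star ((X k j : ℝ) : ℂ) = (X k j : ℂ) := Complex.conj_ofReal _
      rw [h5, h4]
      ring
    have h6 := congrArg Complex.im h3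
    simp only [Complex.star_def, Complex.conj_im] at h6
    simp only [Complex.star_def]
    linarith
  have h7 : ∑ k, star (u k) * (cmat X y *ᵥ u) k
      = (∑ k, star (u k) * ∑ j, (X k j : ℂ) * u j)
        + ∑ k, Complex.I * ((y k * Complex.normSq (u k) : ℝ) : ℂ) := by
    rw [← Finset.sum_add_distrib]
    refine Finset.sum_congr rfl fun k _ => ?_
    rw [h1]
    have h8 : star (u k) * u k = (Complex.normSq (u k) : ℂ) := by
      rw [Complex.normSq_eq_conj_mul_self]; rfl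
    calc star (u k) * ((∑ j, (X k j : ℂ) * u j) + Complex.I * (y k * u k))
        = star (u k) * (∑ j, (X k j : ℂ) * u j) + Complex.I * (y k * (star (u k) * u k)) := by ring
      _ = _ := by rw [h8]; push_cast; ring
  rw [h7, Complex.add_im, h2, Complex.im_sum]
  simp [Complex.mul_im]

/-- `x + i y` is injective and its inverse has entries at most `1` when `y ≥ 1` -/
theorem res_le {m : ℕ} (X : Matrix (Fin m) (Fin m) ℝ) (hX : Xᵀ = X) (y : Fin m → ℝ)
    (hy : ∀ k, 1 ≤ y k) (u : Fin m → ℂ) (j : Fin m)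
    (h : cmat X y *ᵥ u = Pi.single j 1) (k : Fin m) : ‖u k‖ ≤ 1 := by
  have h1 := im_quad X hX y u
  rw [h] at h1
  have h2 : ∑ k, star (u k) * (Pi.single j (1 : ℂ) : Fin m → ℂ) k = star (u j) := by
    rw [Finset.sum_eq_single j]
    · simp
    · intro b _ hb
      simp [Pi.single_apply, hb]
    · simp
  rw [h2] at h1
  have h3 : ∑ k, ‖u k‖ ^ 2 ≤ ‖u j‖ := by
    calc ∑ k, ‖u k‖ ^ 2 ≤ ∑ k, y k * Complex.normSq (u k) := by
          refine Finset.sum_le_sum fun k _ => ?_
          rw [Complex.normSq_eq_norm_sq]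
          nlinarith [sq_nonneg ‖u k‖, hy k]
      _ = (star (u j)).im := h1.symm
      _ ≤ ‖star (u j)‖ := (le_abs_self _).trans (Complex.abs_im_le_norm _)
      _ = ‖u j‖ := norm_star _
  have h4 : ‖u j‖ ^ 2 ≤ ∑ k, ‖u k‖ ^ 2 :=
    Finset.single_le_sum (f := fun k => ‖u k‖ ^ 2) (fun k _ => sq_nonneg _) (Finset.mem_univ j)
  have h5 : ‖u j‖ ≤ 1 := by nlinarith [norm_nonneg (u j)]
  have h6 : ‖u k‖ ^ 2 ≤ ∑ k, ‖u k‖ ^ 2 :=
    Finset.single_le_sum (f := fun k => ‖u k‖ ^ 2) (fun k _ => sq_nonneg _) (Finset.mem_univ k)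
  nlinarith [norm_nonneg (u k)]

theorem det_cmat_ne {m : ℕ} (X : Matrix (Fin m) (Fin m) ℝ) (hX : Xᵀ = X) (y : Fin m → ℝ)
    (hy : ∀ k, 0 < y k) : (cmat X y).det ≠ 0 := by
  intro h0
  obtain ⟨v, hv, hv0⟩ := Matrix.exists_mulVec_eq_zero_iff.2 h0
  have h1 := im_quad X hX y v
  rw [hv0] at h1
  simp only [Pi.zero_apply, mul_zero, Finset.sum_const_zero, Complex.zero_im] at h1
  apply hv
  funext k
  have h2 := (Finset.sum_eq_zero_iff_of_nonneg (fun k _ =>
    mul_nonneg (hy k).le (Complex.normSq_nonneg (v k)))).1 h1.symm k (Finset.mem_univ k)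
  rcases mul_eq_zero.1 h2 with h3 | h3
  · exact absurd h3 (hy k).ne'
  · exact Complex.normSq_eq_zero.1 h3

/-- perturbation bound -/
theorem det_pert {m : ℕ} (X : Matrix (Fin m) (Fin m) ℝ) (hX : Xᵀ = X) (y : Fin m → ℝ)
    (hy : ∀ k, 1 ≤ y k) (H : Matrix (Fin m) (Fin m) ℂ) (b : ℝ) (hH : ∀ i j, ‖H i j‖ ≤ b) :
    ‖(cmat X y + H).det‖ ≤ (m.factorial : ℝ) * (1 + m * b) ^ m * ‖(cmat X y).det‖ := by
  set A := cmat X y with hA
  have hdet : A.det ≠ 0 := det_cmat_ne X hX y (fun k => lt_of_lt_of_le one_pos (hy k))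
  have hu : IsUnit A.det := isUnit_iff_ne_zero.2 hdet
  have h1 : A + H = A * (1 + A⁻¹ * H) := by
    rw [Matrix.mul_add, Matrix.mul_one, ← Matrix.mul_assoc, Matrix.mul_nonsing_inv A hu,
      Matrix.one_mul]
  have h2 : ∀ i j, ‖A⁻¹ i j‖ ≤ 1 := by
    intro i j
    refine res_le X hX y hy (fun i => A⁻¹ i j) j ?_ i
    have h3 : A *ᵥ (fun i => A⁻¹ i j) = (A * A⁻¹).col j := by
      funext k; simp [Matrix.mulVec, Matrix.mul_apply, dotProduct, Matrix.col]
    rw [← hA, h3, Matrix.mul_nonsing_inv A hu]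
    funext k
    simp [Matrix.col, Matrix.one_apply, Pi.single_apply]
  have h3 : ∀ i j, ‖(1 + A⁻¹ * H) i j‖ ≤ 1 + m * b := by
    intro i j
    rw [Matrix.add_apply]
    refine (norm_add_le _ _).trans (add_le_add ?_ ?_)
    · rw [Matrix.one_apply]; split_ifs <;> simp
    · rw [Matrix.mul_apply]
      refine (norm_sum_le _ _).trans ?_
      calc ∑ k, ‖A⁻¹ i k * H k j‖ ≤ ∑ _k : Fin m, b := by
            refine Finset.sum_le_sum fun k _ => ?_
            rw [norm_mul]
            calc ‖A⁻¹ i k‖ * ‖H k j‖ ≤ 1 * b :=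
                  mul_le_mul (h2 i k) (hH k j) (norm_nonneg _) zero_le_one
              _ = b := one_mul b
        _ = m * b := by simp
  have h4 := Matrix.det_le (abv := NormedField.toAbsoluteValue ℂ) (A := 1 + A⁻¹ * H)
    (x := 1 + m * b) (fun i j => by simpa [NormedField.toAbsoluteValue] using h3 i j)
  have h5 : ‖(1 + A⁻¹ * H).det‖ ≤ (m.factorial : ℝ) * (1 + m * b) ^ m := by
    simpa [NormedField.toAbsoluteValue, nsmul_eq_mul] using h4
  rw [h1, Matrix.det_mul, norm_mul, mul_comm]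
  exact mul_le_mul_of_nonneg_right h5 (norm_nonneg _)

end Zyg
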