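import Pool.Agent.Work.MP_93d592_an.KerA

/-!
# MP_93d592_an : kernel estimates, part B (spectral form and Schur complement)
-/

open Matrix Complex

namespace Zyg

theorem spec {m : ℕ} (X : Matrix (Fin m) (Fin m) ℝ) (hX : Xᵀ = X) :
    ∃ (U : Matrix (Fin m) (Fin m) ℝ) (lam : Fin m → ℝ),
      Uᵀ * U = 1 ∧ U * Uᵀ = 1 ∧ X = U * Matrix.diagonal lam * Uᵀ := by
  have hA : X.IsHermitian := by
    rw [Matrix.IsHermitian, Matrix.conjTranspose_eq_transpose_of_trivial]
    exact hX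
  refine ⟨(hA.eigenvectorUnitary : Matrix (Fin m) (Fin m) ℝ), hA.eigenvalues, ?_, ?_, ?_⟩
  · have := Unitary.star_mul_self_of_mem hA.eigenvectorUnitary.2
    rwa [Matrix.star_eq_conjTranspose, Matrix.conjTranspose_eq_transpose_of_trivial] at this
  · have := Unitary.mul_star_self_of_mem hA.eigenvectorUnitary.2
    rwa [Matrix.star_eq_conjTranspose, Matrix.conjTranspose_eq_transpose_of_trivial] at this
  · have := hA.spectral_theorem
    rw [Unitary.conjStarAlgAut_apply] at this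
    rw [Matrix.star_eq_conjTranspose, Matrix.conjTranspose_eq_transpose_of_trivial] at this
    conv_lhs => rw [this]
    rfl

theorem det_U {m : ℕ} (U : Matrix (Fin m) (Fin m) ℝ) (h : Uᵀ * U = 1) : |U.det| = 1 := by
  have h1 := congrArg Matrix.det h
  rw [Matrix.det_mul, Matrix.det_transpose, Matrix.det_one] at h1
  have h2 : |U.det| * |U.det| = 1 := by rw [← abs_mul, h1, abs_one]
  nlinarith [abs_nonneg U.det]

theorem cmat_one_eq {m : ℕ} (U : Matrix (Fin m) (Fin m) ℝ) (lam : Fin m → ℝ)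
    (h2 : U * Uᵀ = 1) :
    cmat (U * Matrix.diagonal lam * Uᵀ) (fun _ => 1)
      = (U.map (fun t => (t : ℂ))) * Matrix.diagonal (fun k => (lam k : ℂ) + Complex.I)
        * (Uᵀ.map (fun t => (t : ℂ))) := by
  have h3 : (U.map (fun t => (t : ℂ))) * (Uᵀ.map (fun t => (t : ℂ))) = 1 := by
    have := congrArg (fun A : Matrix (Fin m) (Fin m) ℝ => A.map (algebraMap ℝ ℂ)) h2
    simp only [Matrix.map_mul, Matrix.map_one _ (map_zero _) (map_one _)] at this
    exact this
  have h4 : (Matrix.diagonal (fun k => (lam k : ℂ) + Complex.I) : Matrix (Fin m) (Fin m) ℂ)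
      = (Matrix.diagonal lam).map (fun t => (t : ℂ)) + Complex.I • 1 := by
    ext i j
    by_cases hij : i = j
    · subst hij; simp
    · simp [Matrix.diagonal_apply_ne _ hij, Matrix.one_apply_ne hij]
  rw [h4, Matrix.mul_add, Matrix.add_mul, Matrix.mul_smul, Matrix.mul_one, Matrix.smul_mul, h3,
    cmat]
  congr 1
  · have h5 : (U * Matrix.diagonal lam * Uᵀ).map (algebraMap ℝ ℂ)
        = (U.map (algebraMap ℝ ℂ)) * ((Matrix.diagonal lam).map (algebraMap ℝ ℂ))
          * (Uᵀ.map (algebraMap ℝ ℂ)) := by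
      rw [Matrix.map_mul, Matrix.map_mul]
    exact h5

theorem normSq_det {m : ℕ} (U : Matrix (Fin m) (Fin m) ℝ) (lam : Fin m → ℝ)
    (h1 : Uᵀ * U = 1) (h2 : U * Uᵀ = 1) :
    ‖(cmat (U * Matrix.diagonal lam * Uᵀ) (fun _ => 1)).det‖ ^ 2 = ∏ k, (1 + lam k ^ 2) := by
  rw [cmat_one_eq U lam h2, Matrix.det_mul, Matrix.det_mul, Matrix.det_diagonal, norm_mul,
    norm_mul]
  have h3 : ‖(U.map (fun t => (t : ℂ))).det‖ = 1 := by
    have : (U.map (fun t => (t : ℂ))).det = ((U.det : ℝ) : ℂ) := by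
      have := (RingHom.map_det (algebraMap ℝ ℂ) U)
      exact this.symm
    rw [this, Complex.norm_real, Real.norm_eq_abs, det_U U h1]
  have h4 : ‖(Uᵀ.map (fun t => (t : ℂ))).det‖ = 1 := by
    have : (Uᵀ.map (fun t => (t : ℂ))).det = ((Uᵀ.det : ℝ) : ℂ) := by
      have := (RingHom.map_det (algebraMap ℝ ℂ) Uᵀ)
      exact this.symm
    rw [this, Complex.norm_real, Real.norm_eq_abs, Matrix.det_transpose, det_U U h1]
  rw [h3, h4, one_mul, mul_one, norm_prod, ← Finset.prod_pow]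
  refine Finset.prod_congr rfl fun k _ => ?_
  rw [← Complex.normSq_eq_norm_sq, Complex.normSq_apply]
  simp
  ring

theorem one_le_det {m : ℕ} (X : Matrix (Fin m) (Fin m) ℝ) (hX : Xᵀ = X) :
    1 ≤ ‖(cmat X (fun _ => 1)).det‖ := by
  obtain ⟨U, lam, h1, h2, rfl⟩ := spec X hX
  have h3 := normSq_det U lam h1 h2
  have h4 : (1 : ℝ) ≤ ∏ k, (1 + lam k ^ 2) := by
    have : (∏ _k : Fin m, (1 : ℝ)) ≤ ∏ k, (1 + lam k ^ 2) :=
      Finset.prod_le_prod (fun _ _ => zero_le_one) (fun k _ => by nlinarith [sq_nonneg (lam k)])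
    simpa using this
  nlinarith [norm_nonneg (cmat (U * Matrix.diagonal lam * Uᵀ) (fun _ => 1)).det]

/-- entries are at most the determinant of `X + i` -/
theorem entry_le {m : ℕ} (X : Matrix (Fin m) (Fin m) ℝ) (hX : Xᵀ = X) (i j : Fin m) :
    1 + X i j ^ 2 ≤ ‖(cmat X (fun _ => 1)).det‖ ^ 2 := by
  obtain ⟨U, lam, h1, h2, rfl⟩ := spec X hX
  rw [normSq_det U lam h1 h2]
  set P := ∏ k, (1 + lam k ^ 2) with hP
  have hP1 : ∀ k, 1 + lam k ^ 2 ≤ P := by
    intro k
    rw [hP, ← Finset.mul_prod_erase _ _ (Finset.mem_univ k)]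
    have : (1 : ℝ) ≤ ∏ x ∈ Finset.univ.erase k, (1 + lam x ^ 2) := by
      have : (∏ _x ∈ Finset.univ.erase k, (1 : ℝ)) ≤ ∏ x ∈ Finset.univ.erase k, (1 + lam x ^ 2) :=
        Finset.prod_le_prod (fun _ _ => zero_le_one)
          (fun k _ => by nlinarith [sq_nonneg (lam k)])
      simpa using this
    nlinarith [sq_nonneg (lam k)]
  have hrow : ∀ i, ∑ k, U i k ^ 2 = 1 := by
    intro i
    have := congrFun (congrFun h2 i) i
    simpa [Matrix.mul_apply, sq] using this
  have hent : (U * Matrix.diagonal lam * Uᵀ) i j = ∑ k, U i k * (lam k * U j k) := by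
    rw [Matrix.mul_apply]
    refine Finset.sum_congr rfl fun k _ => ?_
    rw [Matrix.mul_diagonal, Matrix.transpose_apply]
    ring
  rw [hent]
  have hcs := Finset.sum_mul_sq_le_sq_mul_sq Finset.univ (fun k => U i k)
    (fun k => lam k * U j k)
  rw [hrow i, one_mul] at hcs
  have h5 : ∑ k, (lam k * U j k) ^ 2 ≤ P - 1 := by
    calc ∑ k, (lam k * U j k) ^ 2 ≤ ∑ k, (P - 1) * U j k ^ 2 := by
          refine Finset.sum_le_sum fun k _ => ?_
          rw [mul_pow]
          exact mul_le_mul_of_nonneg_right (by linarith [hP1 k]) (sq_nonneg _)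
      _ = P - 1 := by rw [← Finset.mul_sum, hrow j, mul_one]
  linarith

end Zyg
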