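import Pool.Agent.Work.MP_93d592_an.KerB

/-!
# MP_93d592_an : kernel estimates, part C (Schur complement, last row)
-/

open Matrix Complex

namespace Zyg

/-- the entries of a symmetric matrix of size `m + 1`: the leading block and the last column -/
def eIx (m : ℕ) : Ix m ⊕ Fin (m + 1) ≃ Ix (m + 1) where
  toFun := Sum.elim (fun p => ⟨(p.1.1.castSucc, p.1.2.castSucc), by simpa using p.2⟩)
    (fun i => ⟨(i, Fin.last m), Fin.le_last i⟩)
  invFun p := if h : p.1.2 = Fin.last m then Sum.inr p.1.1
    else Sum.inl ⟨(p.1.1.castPred (fun h1 => h (le_antisymm (Fin.le_last _) (h1 ▸ p.2))),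
      p.1.2.castPred h), by
        rw [Fin.castPred_le_castPred_iff]
        exact p.2⟩
  left_inv := by
    rintro (⟨⟨i, j⟩, h⟩ | i)
    · simp
    · simp
  right_inv := by
    rintro ⟨⟨i, j⟩, h⟩
    by_cases hj : j = Fin.last m
    · subst hj; simp
    · simp [hj]

theorem eIx_inl {m : ℕ} (p : Ix m) :
    eIx m (Sum.inl p) = ⟨(p.1.1.castSucc, p.1.2.castSucc), by simpa using p.2⟩ := rfl

theorem eIx_inr {m : ℕ} (i : Fin (m + 1)) :
    eIx m (Sum.inr i) = ⟨(i, Fin.last m), Fin.le_last i⟩ := rfl

theorem sym_cc {m : ℕ} (x : Ix (m + 1) → ℝ) (i j : Fin m) :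
    sym x i.castSucc j.castSucc = sym (fun p => x (eIx m (Sum.inl p))) i j := by
  simp only [sym, Matrix.of_apply, eIx_inl]
  congr 1

theorem sym_cl {m : ℕ} (x : Ix (m + 1) → ℝ) (i : Fin (m + 1)) :
    sym x i (Fin.last m) = x (eIx m (Sum.inr i)) := by
  simp only [sym, Matrix.of_apply, eIx_inr]
  congr 1
  ext1
  simp [Fin.le_last]

theorem sym_lc {m : ℕ} (x : Ix (m + 1) → ℝ) (i : Fin (m + 1)) :
    sym x (Fin.last m) i = x (eIx m (Sum.inr i)) := by
  have h0 := sym_cl x i
  rw [← h0]
  have := congrFun (congrFun (sym_symm x) i) (Fin.last m)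
  simpa [Matrix.transpose_apply] using this

/-- Schur complement formula -/
theorem schur {m : ℕ} (x : Ix (m + 1) → ℝ) (w : Fin m → ℂ)
    (hw : cmat (sym fun p => x (eIx m (Sum.inl p))) (fun _ => 1) *ᵥ w
      = fun i => (x (eIx m (Sum.inr i.castSucc)) : ℂ)) :
    (cmat (sym x) (fun _ => 1)).det
      = (cmat (sym fun p => x (eIx m (Sum.inl p))) (fun _ => 1)).det
        * ((x (eIx m (Sum.inr (Fin.last m))) : ℂ) + Complex.I
            - ∑ i, (x (eIx m (Sum.inr i.castSucc)) : ℂ) * w i) := by
  set A := cmat (sym fun p => x (eIx m (Sum.inl p))) (fun _ => 1) with hA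
  have hdet : A.det ≠ 0 := det_cmat_ne _ (sym_symm _) _ (fun _ => one_pos)
  have hu : IsUnit A.det := isUnit_iff_ne_zero.2 hdet
  letI : Invertible A := Matrix.invertibleOfIsUnitDet A hu
  let B : Matrix (Fin m) (Fin 1) ℂ := Matrix.of fun i _ => (x (eIx m (Sum.inr i.castSucc)) : ℂ)
  let C : Matrix (Fin 1) (Fin m) ℂ := Matrix.of fun _ i => (x (eIx m (Sum.inr i.castSucc)) : ℂ)
  let D : Matrix (Fin 1) (Fin 1) ℂ :=
    Matrix.of fun _ _ => (x (eIx m (Sum.inr (Fin.last m))) : ℂ) + Complex.I
  let W : Matrix (Fin m) (Fin 1) ℂ := Matrix.of fun i _ => w i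
  have h1 : (cmat (sym x) (fun _ => 1)).submatrix (finSumFinEquiv (m := m) (n := 1))
      (finSumFinEquiv (m := m) (n := 1))
      = Matrix.fromBlocks A B C D := by
    have e1 : ∀ i : Fin m, Fin.castAdd 1 i = i.castSucc := fun i => rfl
    have e2 : ∀ i : Fin 1, Fin.natAdd m i = Fin.last m := by
      intro i
      have : i = 0 := Subsingleton.elim _ _
      subst this
      rfl
    ext (i | i) (j | j)
    · simp only [Matrix.submatrix_apply, finSumFinEquiv_apply_left, Matrix.fromBlocks_apply₁₁, e1,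
        hA, cmat, Matrix.add_apply, Matrix.map_apply, Matrix.smul_apply, sym_cc]
      congr 2
      by_cases hij : i = j
      · subst hij; simp
      · rw [Matrix.diagonal_apply_ne _ hij, Matrix.diagonal_apply_ne]
        intro h; exact hij (Fin.castSucc_injective _ h)
    · simp only [Matrix.submatrix_apply, finSumFinEquiv_apply_left, finSumFinEquiv_apply_right,
        Matrix.fromBlocks_apply₁₂, e1, e2, B,
        cmat, Matrix.add_apply, Matrix.map_apply, Matrix.smul_apply, sym_cl, Matrix.of_apply]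
      rw [Matrix.diagonal_apply_ne]
      · simp
      · exact Fin.castSucc_ne_last i
    · simp only [Matrix.submatrix_apply, finSumFinEquiv_apply_left, finSumFinEquiv_apply_right,
        Matrix.fromBlocks_apply₂₁, e1, e2, C,
        cmat, Matrix.add_apply, Matrix.map_apply, Matrix.smul_apply, sym_lc, Matrix.of_apply]
      rw [Matrix.diagonal_apply_ne]
      · simp
      · exact (Fin.castSucc_ne_last j).symm
    · simp only [Matrix.submatrix_apply, finSumFinEquiv_apply_right,
        Matrix.fromBlocks_apply₂₂, e2, D,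
        cmat, Matrix.add_apply, Matrix.map_apply, Matrix.smul_apply, sym_cl, Matrix.of_apply,
        Matrix.diagonal_apply_eq]
      simp
  have h2 : (cmat (sym x) (fun _ => 1)).det
      = ((cmat (sym x) (fun _ => 1)).submatrix (finSumFinEquiv (m := m) (n := 1))
      (finSumFinEquiv (m := m) (n := 1))).det := (Matrix.det_submatrix_equiv_self _ _).symm
  have h4 : B = A * W := by
    ext i j
    have := congrFun hw i
    simp only [Matrix.mulVec, dotProduct] at this
    rw [Matrix.mul_apply]
    exact this.symm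
  have h3 : ⅟A * B = W := by
    rw [h4, ← Matrix.mul_assoc, invOf_mul_self, Matrix.one_mul]
  have h5 : C * ⅟A * B = C * W := by
    rw [Matrix.mul_assoc, h3]
  rw [h2, h1, Matrix.det_fromBlocks₁₁, h5]
  congr 1
  rw [Matrix.det_fin_one, Matrix.sub_apply, Matrix.mul_apply]
  rfl

end Zyg
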