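import Pool.Agent.Work.MP_93d592_an.KerC

/-!
# MP_93d592_an : kernel estimates, part D (lower bound for the determinant by one row)
-/

open Matrix Complex

namespace Zyg

/-- `|det (x + i)|` -/
noncomputable def Dn {m : ℕ} (x : Ix m → ℝ) : ℝ := ‖(cmat (sym x) (fun _ => 1)).det‖

theorem one_le_Dn {m : ℕ} (x : Ix m → ℝ) : 1 ≤ Dn x := one_le_det _ (sym_symm x)

theorem schur_lower {m : ℕ} (y : Ix m → ℝ) :
    ∃ (B : Matrix (Fin m) (Fin m) ℝ) (g : (Fin m → ℝ) → ℝ), |B.det| * Dn y = 1 ∧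
      ∀ x : Ix (m + 1) → ℝ, (∀ p, x (eIx m (Sum.inl p)) = y p) →
          Dn x ^ 2 = Dn y ^ 2 * ((x (eIx m (Sum.inr (Fin.last m)))
              - g (fun i => x (eIx m (Sum.inr i.castSucc)))) ^ 2
            + (1 + ∑ k, (B *ᵥ fun i => x (eIx m (Sum.inr i.castSucc))) k ^ 2) ^ 2) := by
  obtain ⟨U, lam, h1, h2, hX⟩ := spec (sym y) (sym_symm y)
  have hpos : ∀ k, (0 : ℝ) < 1 + lam k ^ 2 := fun k => by positivity
  have hDn : Dn y ^ 2 = ∏ k, (1 + lam k ^ 2) := by
    rw [Dn, hX]; exact normSq_det U lam h1 h2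
  have hDy : 0 < Dn y := lt_of_lt_of_le one_pos (one_le_Dn y)
  refine ⟨Matrix.diagonal (fun k => (Real.sqrt (1 + lam k ^ 2))⁻¹) * Uᵀ,
    fun v => ∑ i, v i * (sym y *ᵥ (U *ᵥ (fun k => (Uᵀ *ᵥ v) k / (1 + lam k ^ 2)))) i, ?_, ?_⟩
  · rw [Matrix.det_mul, abs_mul, Matrix.det_transpose, det_U U h1, mul_one, Matrix.det_diagonal,
      Finset.abs_prod]
    have h3 : Dn y = ∏ k, Real.sqrt (1 + lam k ^ 2) := by
      have h4 : (∏ k, Real.sqrt (1 + lam k ^ 2)) ^ 2 = Dn y ^ 2 := by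
        rw [hDn, ← Finset.prod_pow]
        exact Finset.prod_congr rfl fun k _ => Real.sq_sqrt (hpos k).le
      have h5 : 0 ≤ ∏ k, Real.sqrt (1 + lam k ^ 2) :=
        Finset.prod_nonneg fun k _ => Real.sqrt_nonneg _
      exact ((sq_eq_sq₀ h5 hDy.le).1 h4).symm
    rw [h3, ← Finset.prod_mul_distrib]
    refine Finset.prod_eq_one fun k _ => ?_
    have h6 : 0 < Real.sqrt (1 + lam k ^ 2) := Real.sqrt_pos.2 (hpos k)
    rw [abs_of_pos (inv_pos.2 h6), inv_mul_cancel₀ h6.ne']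
  · intro x hx
    set v : Fin m → ℝ := fun i => x (eIx m (Sum.inr i.castSucc)) with hv
    have hxy : (fun p => x (eIx m (Sum.inl p))) = y := funext hx
    -- u = M⁻¹ v
    set z : Fin m → ℝ := Uᵀ *ᵥ v with hz
    set u : Fin m → ℝ := U *ᵥ (fun k => z k / (1 + lam k ^ 2)) with hu
    set s : Fin m → ℝ := sym y *ᵥ u with hs
    have hUu : Uᵀ *ᵥ u = fun k => z k / (1 + lam k ^ 2) := by
      rw [hu, Matrix.mulVec_mulVec, h1, Matrix.one_mulVec]
    have hs2 : s = U *ᵥ (fun k => lam k * (z k / (1 + lam k ^ 2))) := by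
      rw [hs, hX, ← Matrix.mulVec_mulVec, ← Matrix.mulVec_mulVec, hUu]
      congr 1
      funext k
      rw [Matrix.mulVec_diagonal]
    have hUs : Uᵀ *ᵥ s = fun k => lam k * (z k / (1 + lam k ^ 2)) := by
      rw [hs2, Matrix.mulVec_mulVec, h1, Matrix.one_mulVec]
    have hss : sym y *ᵥ s + u = v := by
      have h3 : sym y *ᵥ s = U *ᵥ (fun k => lam k * (lam k * (z k / (1 + lam k ^ 2)))) := by
        rw [hX, ← Matrix.mulVec_mulVec, ← Matrix.mulVec_mulVec, hUs]
        congr 1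
        funext k
        rw [Matrix.mulVec_diagonal]
      have h4 : v = U *ᵥ z := by
        rw [hz, Matrix.mulVec_mulVec, h2, Matrix.one_mulVec]
      rw [h3, hu, ← Matrix.mulVec_add, h4]
      congr 1
      funext k
      simp only [Pi.add_apply]
      have := (hpos k).ne'
      field_simp
      ring
    change Dn x ^ 2 = Dn y ^ 2 * ((x (eIx m (Sum.inr (Fin.last m))) - ∑ i, v i * s i) ^ 2
            + (1 + ∑ k, ((Matrix.diagonal (fun k => (Real.sqrt (1 + lam k ^ 2))⁻¹) * Uᵀ)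
              *ᵥ v) k ^ 2) ^ 2)
    have hw : cmat (sym fun p => x (eIx m (Sum.inl p))) (fun _ => 1)
        *ᵥ (fun i => (s i : ℂ) - Complex.I * (u i : ℂ))
        = fun i => (x (eIx m (Sum.inr i.castSucc)) : ℂ) := by
      rw [hxy]
      funext i
      have h5 : (cmat (sym y) (fun _ => 1) *ᵥ (fun i => (s i : ℂ) - Complex.I * (u i : ℂ))) i
          = (∑ j, (sym y i j : ℂ) * ((s j : ℂ) - Complex.I * (u j : ℂ)))
            + Complex.I * ((s i : ℂ) - Complex.I * (u i : ℂ)) := by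
        simp only [cmat, Matrix.add_mulVec, Pi.add_apply, Matrix.smul_mulVec, Pi.smul_apply,
          Matrix.mulVec_diagonal, smul_eq_mul, Complex.ofReal_one, one_mul]
        rfl
      rw [h5]
      have h6 : (∑ j, (sym y i j : ℂ) * ((s j : ℂ) - Complex.I * (u j : ℂ)))
          = (((sym y *ᵥ s) i : ℝ) : ℂ) - Complex.I * ((s i : ℝ) : ℂ) := by
        have h7 : (s i : ℝ) = ∑ j, sym y i j * u j := by rw [hs]; rfl
        have h8 : ((sym y *ᵥ s) i : ℝ) = ∑ j, sym y i j * s j := rfl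
        rw [h7, h8]
        push_cast
        rw [Finset.mul_sum, ← Finset.sum_sub_distrib]
        refine Finset.sum_congr rfl fun j _ => ?_
        ring
      rw [h6]
      have h9 := congrFun hss i
      simp only [Pi.add_apply] at h9
      have h10 : (x (eIx m (Sum.inr i.castSucc)) : ℝ) = (sym y *ᵥ s) i + u i := by
        rw [h9]
      rw [h10]
      push_cast
      linear_combination (-(u i : ℂ)) * Complex.I_sq
    have hsch := schur x _ hw
    have hvu : ∑ i, v i * u i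
        = ∑ k, ((Matrix.diagonal (fun k => (Real.sqrt (1 + lam k ^ 2))⁻¹) * Uᵀ) *ᵥ v) k ^ 2 := by
      have h11 : ∑ i, v i * u i = v ⬝ᵥ (U *ᵥ (fun k => z k / (1 + lam k ^ 2))) := rfl
      rw [h11, Matrix.dotProduct_mulVec, ← Matrix.mulVec_transpose, ← hz, dotProduct]
      refine Finset.sum_congr rfl fun k _ => ?_
      rw [← Matrix.mulVec_mulVec, Matrix.mulVec_diagonal, ← hz, mul_pow, inv_pow,
        Real.sq_sqrt (hpos k).le]
      ring
    have hDx : Dn x ^ 2 = Dn y ^ 2 * ‖((x (eIx m (Sum.inr (Fin.last m))) : ℂ) + Complex.I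
            - ∑ i, (x (eIx m (Sum.inr i.castSucc)) : ℂ) * ((s i : ℂ) - Complex.I * (u i : ℂ)))‖ ^ 2 := by
      rw [Dn, hsch, norm_mul, mul_pow, hxy, Dn]
    rw [hDx]
    congr 1
    rw [← hvu, ← Complex.normSq_eq_norm_sq]
    have h12 : ((x (eIx m (Sum.inr (Fin.last m))) : ℂ) + Complex.I
            - ∑ i, (x (eIx m (Sum.inr i.castSucc)) : ℂ) * ((s i : ℂ) - Complex.I * (u i : ℂ)))
        = ((x (eIx m (Sum.inr (Fin.last m))) - ∑ i, v i * s i : ℝ) : ℂ)
          + ((1 + ∑ i, v i * u i : ℝ) : ℂ) * Complex.I := by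
      push_cast
      rw [add_mul, one_mul, Finset.sum_mul]
      have h13 : ∑ i, (x (eIx m (Sum.inr i.castSucc)) : ℂ) * ((s i : ℂ) - Complex.I * (u i : ℂ))
          = ∑ i, (v i : ℂ) * (s i : ℂ) - ∑ i, (v i : ℂ) * (u i : ℂ) * Complex.I := by
        rw [← Finset.sum_sub_distrib]
        refine Finset.sum_congr rfl fun i _ => ?_
        simp only [hv]
        ring
      rw [h13]
      ring
    rw [h12, Complex.normSq_add_mul_I]

end Zyg
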