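import Pool.Agent.Work.MP_93d592_an.KerD

/-!
# MP_93d592_an : kernel estimates, part E (integrability of `|det (x + i)|^(-p)`, `p > m`)
-/

open Matrix Complex MeasureTheory

namespace Zyg

theorem Dn_continuous {m : ℕ} : Continuous (Dn : (Ix m → ℝ) → ℝ) := by
  unfold Dn cmat
  refine continuous_norm.comp (Continuous.matrix_det ?_)
  refine Continuous.add ?_ continuous_const
  refine continuous_matrix fun i j => ?_
  exact Complex.continuous_ofReal.comp (continuous_apply _)

theorem F_meas {m : ℕ} (p : ℝ) :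
    Measurable (fun x : Ix m → ℝ => ENNReal.ofReal (Dn x ^ (-p))) := by
  refine ENNReal.measurable_ofReal.comp ?_
  exact (Dn_continuous.measurable).pow_const _

/-- one-dimensional and `m`-dimensional integrals -/
theorem int_one (q : ℝ) (hq : 1 < q) :
    (∫⁻ t : ℝ, ENNReal.ofReal ((1 + t ^ 2) ^ (-q / 2))) < ⊤ := by
  have h1 : ((Module.finrank ℝ ℝ : ℕ) : ℝ) < q := by simpa using hq
  have h2 := (integrable_rpow_neg_one_add_norm_sq (E := ℝ) (μ := volume) h1).lintegral_lt_top
  refine lt_of_le_of_lt (le_of_eq ?_) h2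
  refine lintegral_congr fun t => ?_
  rw [Real.norm_eq_abs, sq_abs]

theorem int_vec (m : ℕ) (r : ℝ) (hr : (m : ℝ) < 2 * r) :
    (∫⁻ w : Fin m → ℝ, ENNReal.ofReal ((1 + ∑ k, w k ^ 2) ^ (-r))) < ⊤ := by
  have h1 : ((Module.finrank ℝ (Fin m → ℝ) : ℕ) : ℝ) < 2 * r := by simpa using hr
  have h2 := (integrable_rpow_neg_one_add_norm_sq (E := Fin m → ℝ) (μ := volume)
    h1).lintegral_lt_top
  have hr0 : 0 < r := by
    have : (0 : ℝ) ≤ m := Nat.cast_nonneg m
    linarith
  refine lt_of_le_of_lt (lintegral_mono fun w => ENNReal.ofReal_le_ofReal ?_) h2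
  have h3 : ‖w‖ ^ 2 ≤ ∑ k, w k ^ 2 := by
    have h4 : ‖w‖ ≤ Real.sqrt (∑ k, w k ^ 2) := by
      rw [pi_norm_le_iff_of_nonneg (Real.sqrt_nonneg _)]
      intro k
      rw [Real.norm_eq_abs]
      refine Real.abs_le_sqrt ?_
      exact Finset.single_le_sum (f := fun k => w k ^ 2) (fun k _ => sq_nonneg _)
        (Finset.mem_univ k)
    calc ‖w‖ ^ 2 ≤ Real.sqrt (∑ k, w k ^ 2) ^ 2 := by
          gcongr
      _ = ∑ k, w k ^ 2 := Real.sq_sqrt (Finset.sum_nonneg fun k _ => sq_nonneg _)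
  have h5 : -(2 * r) / 2 = -r := by ring
  rw [h5, Real.rpow_neg (by positivity), Real.rpow_neg (by positivity)]
  exact inv_anti₀ (by positivity) (Real.rpow_le_rpow (by positivity) (by linarith) hr0.le)

theorem int_lin {m : ℕ} (B : Matrix (Fin m) (Fin m) ℝ) (hB : B.det ≠ 0) (r : ℝ) :
    (∫⁻ v : Fin m → ℝ, ENNReal.ofReal ((1 + ∑ k, (B *ᵥ v) k ^ 2) ^ (-r)))
      = ENNReal.ofReal |(B.det)⁻¹|
        * ∫⁻ w : Fin m → ℝ, ENNReal.ofReal ((1 + ∑ k, w k ^ 2) ^ (-r)) := by
  have h1 := Real.map_matrix_volume_pi_eq_smul_volume_pi hB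
  have hm : Measurable (fun w : Fin m → ℝ => ENNReal.ofReal ((1 + ∑ k, w k ^ 2) ^ (-r))) := by
    refine ENNReal.measurable_ofReal.comp (Measurable.pow_const ?_ _)
    fun_prop
  have hl : Measurable (Matrix.toLin' B) :=
    (LinearMap.continuous_on_pi (Matrix.toLin' B)).measurable
  calc (∫⁻ v : Fin m → ℝ, ENNReal.ofReal ((1 + ∑ k, (B *ᵥ v) k ^ 2) ^ (-r)))
      = ∫⁻ w, ENNReal.ofReal ((1 + ∑ k, w k ^ 2) ^ (-r))
          ∂(Measure.map (Matrix.toLin' B) volume) := by
        rw [lintegral_map hm hl]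
        rfl
    _ = _ := by rw [h1, lintegral_smul_measure]; rfl

/-- pointwise bound after the Schur complement -/
theorem pt_bound (a τ b p q r : ℝ) (ha : 1 ≤ a) (hb : 1 ≤ b) (hq : 0 ≤ q) (hr : 0 ≤ r)
    (hpq : p = q + r) (d : ℝ) (hd : 0 ≤ d) (hda : d ^ 2 = a ^ 2 * (τ ^ 2 + b ^ 2)) :
    d ^ (-p) ≤ a ^ (-p) * ((1 + τ ^ 2) ^ (-q / 2) * b ^ (-r)) := by
  have ha0 : 0 < a := by linarith
  have hb0 : 0 < b := by linarith
  have hs : 0 < τ ^ 2 + b ^ 2 := by positivity
  have h1 : d = a * Real.sqrt (τ ^ 2 + b ^ 2) := by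
    have : (a * Real.sqrt (τ ^ 2 + b ^ 2)) ^ 2 = d ^ 2 := by
      rw [mul_pow, Real.sq_sqrt hs.le, hda]
    exact ((sq_eq_sq₀ (by positivity) hd).1 this).symm
  set s := Real.sqrt (τ ^ 2 + b ^ 2) with hsdef
  have hs0 : 0 < s := Real.sqrt_pos.2 hs
  have h2 : b ≤ s := by
    rw [hsdef]; exact Real.le_sqrt_of_sq_le (by nlinarith [sq_nonneg τ])
  have h3 : (1 + τ ^ 2) ≤ s ^ 2 := by
    rw [hsdef, Real.sq_sqrt hs.le]; nlinarith
  rw [h1, Real.mul_rpow ha0.le hs0.le]
  refine mul_le_mul_of_nonneg_left ?_ (Real.rpow_nonneg ha0.le _)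
  have h4 : s ^ (-p) = s ^ (-q) * s ^ (-r) := by
    rw [← Real.rpow_add hs0]; congr 1; rw [hpq]; ring
  rw [h4]
  refine mul_le_mul ?_ ?_ (Real.rpow_nonneg hs0.le _) (Real.rpow_nonneg (by positivity) _)
  · have h5 : s ^ (-q) = (s ^ 2) ^ (-q / 2) := by
      rw [← Real.rpow_natCast, ← Real.rpow_mul hs0.le]; congr 1; push_cast; ring
    rw [h5]
    exact Real.rpow_le_rpow_of_nonpos (by positivity) h3 (by linarith)
  · exact Real.rpow_le_rpow_of_nonpos hb0 h2 (by linarith)

theorem lint_split {m : ℕ} (F : (Ix (m + 1) → ℝ) → ENNReal) (hF : Measurable F) :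
    ∫⁻ x, F x = ∫⁻ y : Ix m → ℝ, ∫⁻ v : Fin m → ℝ, ∫⁻ t : ℝ,
      F (fun p => Sum.elim y (Fin.snoc v t : Fin (m + 1) → ℝ) ((eIx m).symm p)) := by
  have e1 := volume_measurePreserving_piCongrLeft (fun _ : Ix (m + 1) => ℝ) (eIx m)
  have e2 := volume_measurePreserving_sumPiEquivProdPi_symm (fun _ : Ix m ⊕ Fin (m + 1) => ℝ)
  have e3 := (volume_preserving_piFinSuccAbove (fun _ : Fin (m + 1) => ℝ) (Fin.last m)).symm
  have h1 : ∫⁻ x, F x = ∫⁻ z : (Ix m → ℝ) × (Fin (m + 1) → ℝ),
      F (fun p => Sum.elim z.1 z.2 ((eIx m).symm p)) := by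
    rw [← (e1.comp e2).lintegral_comp_emb (MeasurableEquiv.measurableEmbedding
      ((MeasurableEquiv.sumPiEquivProdPi fun _ : Ix m ⊕ Fin (m + 1) => ℝ).symm.trans
        (MeasurableEquiv.piCongrLeft (fun _ : Ix (m + 1) => ℝ) (eIx m)))) F]
    refine lintegral_congr fun z => ?_
    congr 1
    funext p
    obtain ⟨p', rfl⟩ := (eIx m).surjective p
    simp only [Function.comp, Equiv.symm_apply_apply]
    rw [MeasurableEquiv.coe_piCongrLeft, Equiv.piCongrLeft_apply_apply]
    rcases p' with p' | p' <;> rfl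
  rw [h1]
  have hm1 : Measurable fun z : (Ix m → ℝ) × (Fin (m + 1) → ℝ) =>
      F (fun p => Sum.elim z.1 z.2 ((eIx m).symm p)) := by
    refine hF.comp (measurable_pi_lambda _ fun p => ?_)
    rcases (eIx m).symm p with q | q
    · exact (measurable_pi_apply q).comp measurable_fst
    · exact (measurable_pi_apply q).comp measurable_snd
  rw [show (volume : Measure ((Ix m → ℝ) × (Fin (m + 1) → ℝ))) = volume.prod volume from rfl,
    lintegral_prod _ hm1.aemeasurable]
  refine lintegral_congr fun y => ?_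
  have hm2 : Measurable fun c : Fin (m + 1) → ℝ =>
      F (fun p => Sum.elim y c ((eIx m).symm p)) :=
    hm1.comp (measurable_const.prodMk measurable_id)
  rw [← e3.lintegral_comp_emb (MeasurableEquiv.measurableEmbedding _)]
  have hm3 : Measurable fun z : ℝ × (Fin m → ℝ) =>
      F (fun p => Sum.elim y (Fin.snoc z.2 z.1 : Fin (m + 1) → ℝ) ((eIx m).symm p)) := by
    refine hm2.comp (measurable_pi_lambda _ fun i => ?_)
    refine Fin.lastCases ?_ (fun j => ?_) i
    · simp only [Fin.snoc_last]; exact measurable_fst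
    · simp only [Fin.snoc_castSucc]; exact (measurable_pi_apply j).comp measurable_snd
  have h4 : ∀ z : ℝ × (Fin m → ℝ),
      ((MeasurableEquiv.piFinSuccAbove (fun _ : Fin (m + 1) => ℝ) (Fin.last m)).symm z)
        = (Fin.snoc z.2 z.1 : Fin (m + 1) → ℝ) := by
    intro z
    funext i
    refine Fin.lastCases ?_ (fun j => ?_) i
    · simp [MeasurableEquiv.piFinSuccAbove]
    · simp [MeasurableEquiv.piFinSuccAbove]
  simp only [h4]
  rw [show (volume : Measure (ℝ × (Fin m → ℝ))) = volume.prod volume from rfl,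
    lintegral_prod_symm _ hm3.aemeasurable]

theorem lint_Dn (m : ℕ) : ∀ p : ℝ, (m : ℝ) < p →
    (∫⁻ x : Ix m → ℝ, ENNReal.ofReal (Dn x ^ (-p))) < ⊤ := by
  induction m with
  | zero =>
    intro p hp
    have h1 : ∀ x : Ix 0 → ℝ, ENNReal.ofReal (Dn x ^ (-p)) ≤ 1 := by
      intro x
      rw [← ENNReal.ofReal_one]
      refine ENNReal.ofReal_le_ofReal ?_
      exact Real.rpow_le_one_of_one_le_of_nonpos (one_le_Dn x) (by
        have : (0 : ℝ) ≤ ((0 : ℕ) : ℝ) := by simp
        linarith)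
    haveI : IsEmpty (Ix 0) := ⟨fun p => p.1.1.elim0⟩
    refine lt_of_le_of_lt (lintegral_mono h1) ?_
    rw [lintegral_one]
    rw [volume_pi, Measure.pi_of_empty]
    simp
  | succ m ih =>
    intro p hp
    have hp' : (m : ℝ) + 1 < p := by simpa using hp
    set q : ℝ := (1 + (p - m)) / 2 with hq
    set r : ℝ := p - q with hr
    have hq1 : 1 < q := by rw [hq]; linarith
    have hrm : (m : ℝ) < r := by rw [hr, hq]; linarith
    have hm0 : (0 : ℝ) ≤ m := Nat.cast_nonneg m
    have hr0 : 0 < r := by linarith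
    rw [lint_split _ (F_meas p)]
    set K := ∫⁻ t : ℝ, ENNReal.ofReal ((1 + t ^ 2) ^ (-q / 2)) with hK
    set J := ∫⁻ w : Fin m → ℝ, ENNReal.ofReal ((1 + ∑ k, w k ^ 2) ^ (-r)) with hJ
    have hKf : K < ⊤ := int_one q hq1
    have hJf : J < ⊤ := int_vec m r (by linarith)
    have key : ∀ y : Ix m → ℝ, (∫⁻ v : Fin m → ℝ, ∫⁻ t : ℝ,
        ENNReal.ofReal (Dn (fun p => Sum.elim y (Fin.snoc v t : Fin (m + 1) → ℝ)
          ((eIx m).symm p)) ^ (-p)))
        ≤ ENNReal.ofReal (Dn y ^ (-(p - 1))) * (K * J) := by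
      intro y
      obtain ⟨B, g, hB, hg⟩ := schur_lower y
      have hDy : 1 ≤ Dn y := one_le_Dn y
      have hDy0 : 0 < Dn y := by linarith
      have hBne : B.det ≠ 0 := by
        intro h0
        rw [h0, abs_zero, zero_mul] at hB
        exact zero_ne_one hB
      have hBinv : |(B.det)⁻¹| = Dn y := by
        rw [abs_inv]
        have : |B.det| ≠ 0 := abs_ne_zero.2 hBne
        field_simp
        linarith [hB]
      have h1 : ∀ (v : Fin m → ℝ) (t : ℝ),
          ENNReal.ofReal (Dn (fun p => Sum.elim y (Fin.snoc v t : Fin (m + 1) → ℝ)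
            ((eIx m).symm p)) ^ (-p))
          ≤ ENNReal.ofReal (Dn y ^ (-p)) * (ENNReal.ofReal ((1 + ∑ k, (B *ᵥ v) k ^ 2) ^ (-r))
            * ENNReal.ofReal ((1 + (t - g v) ^ 2) ^ (-q / 2))) := by
        intro v t
        set x : Ix (m + 1) → ℝ := fun p => Sum.elim y (Fin.snoc v t : Fin (m + 1) → ℝ)
            ((eIx m).symm p) with hx
        have hx1 : ∀ p, x (eIx m (Sum.inl p)) = y p := by
          intro p; simp [hx]
        have hx2 : (fun i : Fin m => x (eIx m (Sum.inr i.castSucc))) = v := by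
          funext i; simp [hx]
        have hx3 : x (eIx m (Sum.inr (Fin.last m))) = t := by
          simp [hx]
        have h2 := hg x hx1
        rw [hx2, hx3] at h2
        have hsum : 0 ≤ ∑ k, (B *ᵥ v) k ^ 2 := Finset.sum_nonneg fun k _ => sq_nonneg _
        have h3 := pt_bound (Dn y) (t - g v) (1 + ∑ k, (B *ᵥ v) k ^ 2) p q r hDy
          (by linarith) (by linarith) hr0.le (by rw [hr]; ring) (Dn x)
          (by linarith [one_le_Dn x]) h2
        rw [← ENNReal.ofReal_mul (by positivity), ← ENNReal.ofReal_mul (by positivity)]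
        refine ENNReal.ofReal_le_ofReal (h3.trans (le_of_eq ?_))
        ring
      calc (∫⁻ v : Fin m → ℝ, ∫⁻ t : ℝ,
            ENNReal.ofReal (Dn (fun p => Sum.elim y (Fin.snoc v t : Fin (m + 1) → ℝ)
              ((eIx m).symm p)) ^ (-p)))
          ≤ ∫⁻ v : Fin m → ℝ, ENNReal.ofReal (Dn y ^ (-p))
              * (ENNReal.ofReal ((1 + ∑ k, (B *ᵥ v) k ^ 2) ^ (-r)) * K) := by
            refine lintegral_mono fun v => ?_
            calc (∫⁻ t : ℝ, ENNReal.ofReal (Dn (fun p => Sum.elim y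
                    (Fin.snoc v t : Fin (m + 1) → ℝ) ((eIx m).symm p)) ^ (-p)))
                ≤ ∫⁻ t : ℝ, ENNReal.ofReal (Dn y ^ (-p))
                    * (ENNReal.ofReal ((1 + ∑ k, (B *ᵥ v) k ^ 2) ^ (-r))
                      * ENNReal.ofReal ((1 + (t - g v) ^ 2) ^ (-q / 2))) :=
                  lintegral_mono fun t => h1 v t
              _ = ENNReal.ofReal (Dn y ^ (-p))
                    * (ENNReal.ofReal ((1 + ∑ k, (B *ᵥ v) k ^ 2) ^ (-r)) * K) := by
                  have hmeas : Measurable fun t : ℝ =>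
                      ENNReal.ofReal ((1 + (t - g v) ^ 2) ^ (-q / 2)) := by
                    refine ENNReal.measurable_ofReal.comp (Measurable.pow_const ?_ _)
                    fun_prop
                  rw [lintegral_const_mul _ (hmeas.const_mul _), lintegral_const_mul _ hmeas]
                  congr 2
                  exact lintegral_sub_right_eq_self
                    (fun t : ℝ => ENNReal.ofReal ((1 + t ^ 2) ^ (-q / 2))) (g v)
        _ = ENNReal.ofReal (Dn y ^ (-p)) * ((ENNReal.ofReal |(B.det)⁻¹| * J) * K) := by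
            have hmeas : Measurable fun v : Fin m → ℝ =>
                ENNReal.ofReal ((1 + ∑ k, (B *ᵥ v) k ^ 2) ^ (-r)) := by
              refine ENNReal.measurable_ofReal.comp (Measurable.pow_const ?_ _)
              refine measurable_const.add ?_
              refine Finset.measurable_sum _ fun k _ => ?_
              refine Measurable.pow_const ?_ _
              have hl : Measurable (Matrix.toLin' B) :=
                (LinearMap.continuous_on_pi (Matrix.toLin' B)).measurable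
              exact (measurable_pi_apply k).comp hl
            rw [lintegral_const_mul _ (hmeas.mul_const _), lintegral_mul_const _ hmeas,
              int_lin B hBne r]
        _ = ENNReal.ofReal (Dn y ^ (-(p - 1))) * (K * J) := by
            rw [hBinv]
            have h5 : Dn y ^ (-(p - 1)) = Dn y ^ (-p) * Dn y := by
              have : -(p - 1) = -p + 1 := by ring
              rw [this, Real.rpow_add hDy0, Real.rpow_one]
            rw [h5, ENNReal.ofReal_mul (by positivity)]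
            ring
    calc (∫⁻ y : Ix m → ℝ, ∫⁻ v : Fin m → ℝ, ∫⁻ t : ℝ,
          ENNReal.ofReal (Dn (fun p => Sum.elim y (Fin.snoc v t : Fin (m + 1) → ℝ)
            ((eIx m).symm p)) ^ (-p)))
        ≤ ∫⁻ y : Ix m → ℝ, ENNReal.ofReal (Dn y ^ (-(p - 1))) * (K * J) :=
          lintegral_mono key
      _ = (∫⁻ y : Ix m → ℝ, ENNReal.ofReal (Dn y ^ (-(p - 1)))) * (K * J) :=
          lintegral_mul_const _ (F_meas (p - 1))
      _ < ⊤ := ENNReal.mul_lt_top (ih (p - 1) (by linarith)) (ENNReal.mul_lt_top hKf hJf)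

end Zyg
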