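import Pool.Agent.Work.MP_93d592_an.KerE

/-!
# MP_93d592_an : kernel estimates, part F (comparison on cubes, scaling, summability)
-/

open Matrix Complex MeasureTheory

namespace Zyg

/-- (K2) comparison of `|det (x + i)|` at points at distance at most `1` -/
theorem Dn_add_le {m : ℕ} (x h : Ix m → ℝ) (hh : ∀ c, |h c| ≤ 1) :
    Dn (x + h) ≤ ((m.factorial : ℝ) * (1 + m) ^ m) * Dn x := by
  have h1 := det_pert (sym x) (sym_symm x) (fun _ => 1) (fun _ => le_refl 1)
    ((sym h).map (fun t => (t : ℂ))) 1 (by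
      intro i j
      rw [Matrix.map_apply, Complex.norm_real, Real.norm_eq_abs]
      exact hh _)
  have h2 : cmat (sym x) (fun _ => 1) + (sym h).map (fun t => (t : ℂ))
      = cmat (sym (x + h)) (fun _ => 1) := by
    rw [sym_add]
    ext i j
    simp only [cmat, Matrix.add_apply, Matrix.map_apply, Matrix.smul_apply]
    push_cast
    ring
  rw [h2, mul_one] at h1
  exact h1

/-- `X ↦ G⁻¹ X G⁻¹` in coordinates -/
noncomputable def scl {m : ℕ} (g : Fin m → ℝ) (x : Ix m → ℝ) : Ix m → ℝ :=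
  fun p => x p / (g p.1.1 * g p.1.2)

theorem sym_scl {m : ℕ} (g : Fin m → ℝ) (x : Ix m → ℝ) (i j : Fin m) :
    sym (scl g x) i j = sym x i j / (g i * g j) := by
  simp only [sym, scl, Matrix.of_apply]
  congr 1
  rcases le_total i j with h | h
  · rw [min_eq_left h, max_eq_right h]
  · rw [min_eq_right h, max_eq_left h, mul_comm]

/-- (K3) scaling -/
theorem det_scale {m : ℕ} (x : Ix m → ℝ) (g e : Fin m → ℝ) (hg : ∀ k, 0 < g k) :
    ‖(cmat (sym x) (fun k => g k ^ 2 * e k)).det‖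
      = (∏ k, g k) ^ 2 * ‖(cmat (sym (scl g x)) e).det‖ := by
  have h1 : cmat (sym x) (fun k => g k ^ 2 * e k)
      = Matrix.diagonal (fun k => (g k : ℂ)) * cmat (sym (scl g x)) e
        * Matrix.diagonal (fun k => (g k : ℂ)) := by
    ext i j
    rw [Matrix.mul_diagonal, Matrix.diagonal_mul]
    simp only [cmat, Matrix.add_apply, Matrix.map_apply, Matrix.smul_apply, sym_scl, smul_eq_mul]
    have hi : (g i : ℂ) ≠ 0 := by exact_mod_cast (hg i).ne'
    have hj : (g j : ℂ) ≠ 0 := by exact_mod_cast (hg j).ne'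
    by_cases hij : i = j
    · subst hij
      rw [Matrix.diagonal_apply_eq, Matrix.diagonal_apply_eq]
      push_cast
      field_simp
    · rw [Matrix.diagonal_apply_ne _ hij, Matrix.diagonal_apply_ne _ hij]
      push_cast
      field_simp
      ring
  rw [h1, Matrix.det_mul, Matrix.det_mul, Matrix.det_diagonal, norm_mul, norm_mul, norm_prod]
  have h2 : ∏ k, ‖(g k : ℂ)‖ = ∏ k, g k := by
    refine Finset.prod_congr rfl fun k _ => ?_
    rw [Complex.norm_real, Real.norm_eq_abs, abs_of_pos (hg k)]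
  rw [h2]
  ring

theorem det_e_le {m : ℕ} (x : Ix m → ℝ) (e : Fin m → ℝ) (he : ∀ k, 1 ≤ e k ∧ e k ≤ 4) :
    Dn x ≤ ((m.factorial : ℝ) * (1 + m * 3) ^ m) * ‖(cmat (sym x) e).det‖ := by
  have h1 := det_pert (sym x) (sym_symm x) e (fun k => (he k).1)
    (Complex.I • Matrix.diagonal (fun k => ((1 - e k : ℝ) : ℂ))) 3 (by
      intro i j
      rw [Matrix.smul_apply, smul_eq_mul, norm_mul, Complex.norm_I, one_mul]
      by_cases hij : i = j
      · subst hij
        rw [Matrix.diagonal_apply_eq, Complex.norm_real, Real.norm_eq_abs, abs_le]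
        constructor <;> linarith [(he i).1, (he i).2]
      · rw [Matrix.diagonal_apply_ne _ hij, norm_zero]; norm_num)
  have h2 : cmat (sym x) e + Complex.I • Matrix.diagonal (fun k => ((1 - e k : ℝ) : ℂ))
      = cmat (sym x) (fun _ => 1) := by
    ext i j
    simp only [cmat, Matrix.add_apply, Matrix.map_apply, Matrix.smul_apply, smul_eq_mul]
    by_cases hij : i = j
    · subst hij
      rw [Matrix.diagonal_apply_eq, Matrix.diagonal_apply_eq, Matrix.diagonal_apply_eq]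
      push_cast
      ring
    · rw [Matrix.diagonal_apply_ne _ hij, Matrix.diagonal_apply_ne _ hij,
        Matrix.diagonal_apply_ne _ hij]
      ring
  rw [h2] at h1
  exact h1

/-- `det y / |det (x + i y)|^2` -/
noncomputable def pk {m : ℕ} (x : Ix m → ℝ) (y : Fin m → ℝ) : ℝ :=
  (∏ k, y k) / ‖(cmat (sym x) y).det‖ ^ 2

theorem pk_scale {m : ℕ} (x : Ix m → ℝ) (g : Fin m → ℝ) (hg : ∀ k, 0 < g k) :
    pk x (fun k => g k ^ 2) = 1 / ((∏ k, g k) ^ 2 * Dn (scl g x) ^ 2) := by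
  have h1 := det_scale x g (fun _ => 1) hg
  simp only [mul_one] at h1
  have h2 : 0 < ∏ k, g k := Finset.prod_pos fun k _ => hg k
  have h3 : 0 < Dn (scl g x) := lt_of_lt_of_le one_pos (one_le_Dn _)
  rw [pk, h1, Finset.prod_pow]
  change _ / ((∏ k, g k) ^ 2 * Dn (scl g x)) ^ 2 = _
  field_simp

/-- (K3) comparison of the kernels for `y₀ ≤ y ≤ 4 y₀` -/
theorem pk_le {m : ℕ} (x : Ix m → ℝ) (g e : Fin m → ℝ) (hg : ∀ k, 0 < g k)
    (he : ∀ k, 1 ≤ e k ∧ e k ≤ 4) :
    pk x (fun k => g k ^ 2 * e k)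
      ≤ (4 ^ m * ((m.factorial : ℝ) * (1 + m * 3) ^ m) ^ 2)
        * (1 / ((∏ k, g k) ^ 2 * Dn (scl g x) ^ 2)) := by
  have h2 : 0 < ∏ k, g k := Finset.prod_pos fun k _ => hg k
  have h3 : 0 < Dn (scl g x) := lt_of_lt_of_le one_pos (one_le_Dn _)
  have h4 := det_e_le (scl g x) e he
  have h5 : 0 < ‖(cmat (sym (scl g x)) e).det‖ :=
    norm_pos_iff.2 (det_cmat_ne _ (sym_symm _) _ fun k => lt_of_lt_of_le one_pos (he k).1)
  set K : ℝ := (m.factorial : ℝ) * (1 + m * 3) ^ m with hK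
  have hK0 : 0 < K := by positivity
  set d := ‖(cmat (sym (scl g x)) e).det‖ with hd
  have h6 : ∏ k, e k ≤ 4 ^ m := by
    calc ∏ k, e k ≤ ∏ _k : Fin m, (4 : ℝ) :=
          Finset.prod_le_prod (fun k _ => by linarith [(he k).1]) (fun k _ => (he k).2)
      _ = 4 ^ m := by simp
  have h7 : 0 ≤ ∏ k, e k := Finset.prod_nonneg fun k _ => by linarith [(he k).1]
  rw [pk, det_scale x g e hg, Finset.prod_mul_distrib, Finset.prod_pow, ← hd]
  have h8 : Dn (scl g x) ^ 2 ≤ K ^ 2 * d ^ 2 := by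
    rw [← mul_pow]; exact pow_le_pow_left₀ h3.le h4 2
  rw [div_le_iff₀ (by positivity)]
  have h9 : (4 ^ m * K ^ 2) * (1 / ((∏ k, g k) ^ 2 * Dn (scl g x) ^ 2))
      * ((∏ k, g k) ^ 2 * d) ^ 2
      = 4 ^ m * (∏ k, g k) ^ 2 * ((K ^ 2 * d ^ 2) / Dn (scl g x) ^ 2) := by
    field_simp
  rw [h9]
  have h10 : 1 ≤ (K ^ 2 * d ^ 2) / Dn (scl g x) ^ 2 := by
    rw [le_div_iff₀ (by positivity), one_mul]; exact h8
  calc (∏ k, g k) ^ 2 * ∏ k, e k ≤ (∏ k, g k) ^ 2 * 4 ^ m :=
        mul_le_mul_of_nonneg_left h6 (by positivity)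
    _ = 4 ^ m * (∏ k, g k) ^ 2 * 1 := by ring
    _ ≤ 4 ^ m * (∏ k, g k) ^ 2 * ((K ^ 2 * d ^ 2) / Dn (scl g x) ^ 2) :=
        mul_le_mul_of_nonneg_left h10 (by positivity)

/-- the unit cube at `s` -/
def cube {ι : Type} (s : ι → ℤ) : Set (ι → ℝ) := {x | ∀ c, ⌊x c⌋ = s c}

theorem cube_eq {ι : Type} (s : ι → ℤ) :
    cube s = Set.univ.pi fun c => Set.Ico (s c : ℝ) (s c + 1) := by
  ext x
  simp [cube, Int.floor_eq_iff]

theorem cube_vol {ι : Type} [Fintype ι] (s : ι → ℤ) : volume (cube s) = 1 := by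
  rw [cube_eq, Real.volume_pi_Ico]
  simp

theorem cube_meas {ι : Type} [Fintype ι] (s : ι → ℤ) : MeasurableSet (cube s) := by
  rw [cube_eq]
  exact MeasurableSet.univ_pi fun c => measurableSet_Ico

theorem Dn_cube {m : ℕ} (s : Ix m → ℤ) (x : Ix m → ℝ) (hx : x ∈ cube s) :
    Dn x ≤ ((m.factorial : ℝ) * (1 + m) ^ m) * Dn (fun c => (s c : ℝ)) := by
  have h1 : x = (fun c => (s c : ℝ)) + (x - fun c => (s c : ℝ)) := by
    funext c; simp
  rw [h1]
  refine Dn_add_le _ _ fun c => ?_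
  have h2 := Int.floor_eq_iff.1 (hx c)
  simp only [Pi.sub_apply]
  rw [abs_le]
  constructor <;> linarith [h2.1, h2.2]

theorem sum_Dn (m : ℕ) (p : ℝ) (hp : (m : ℝ) < p) :
    Summable fun s : Ix m → ℤ => Dn (fun c => (s c : ℝ)) ^ (-p) := by
  have hp0 : 0 < p := lt_of_le_of_lt (Nat.cast_nonneg m) hp
  set K : ℝ := (m.factorial : ℝ) * (1 + m) ^ m with hK
  have hK0 : 0 < K := by positivity
  have h1 : ∀ s : Ix m → ℤ, ENNReal.ofReal (Dn (fun c => (s c : ℝ)) ^ (-p))
      ≤ ∫⁻ x in cube s, ENNReal.ofReal (K ^ p) * ENNReal.ofReal (Dn x ^ (-p)) := by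
    intro s
    calc ENNReal.ofReal (Dn (fun c => (s c : ℝ)) ^ (-p))
        = ∫⁻ _x in cube s, ENNReal.ofReal (Dn (fun c => (s c : ℝ)) ^ (-p)) := by
          rw [setLIntegral_const, cube_vol, mul_one]
      _ ≤ _ := by
          refine setLIntegral_mono ((F_meas p).const_mul _) fun x hx => ?_
          rw [← ENNReal.ofReal_mul (by positivity)]
          refine ENNReal.ofReal_le_ofReal ?_
          have h2 := Dn_cube s x hx
          have h3 : 0 < Dn x := lt_of_lt_of_le one_pos (one_le_Dn x)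
          have h4 : 0 < Dn (fun c => (s c : ℝ)) := lt_of_lt_of_le one_pos (one_le_Dn _)
          have h5 : (K * Dn (fun c => (s c : ℝ))) ^ (-p) ≤ Dn x ^ (-p) :=
            Real.rpow_le_rpow_of_nonpos h3 h2 (by linarith)
          rw [Real.mul_rpow hK0.le h4.le] at h5
          have h6 : K ^ p * K ^ (-p) = 1 := by
            rw [← Real.rpow_add hK0]; simp
          calc Dn (fun c => (s c : ℝ)) ^ (-p)
              = K ^ p * (K ^ (-p) * Dn (fun c => (s c : ℝ)) ^ (-p)) := by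
                rw [← mul_assoc, h6, one_mul]
            _ ≤ K ^ p * Dn x ^ (-p) := mul_le_mul_of_nonneg_left h5 (by positivity)
  have h2 : ∑' s : Ix m → ℤ, ∫⁻ x in cube s, ENNReal.ofReal (K ^ p) * ENNReal.ofReal (Dn x ^ (-p))
      = ∫⁻ x : Ix m → ℝ, ENNReal.ofReal (K ^ p) * ENNReal.ofReal (Dn x ^ (-p)) := by
    rw [← lintegral_iUnion (fun s => cube_meas s)]
    · have : (⋃ s : Ix m → ℤ, cube s) = Set.univ := by
        ext x
        simp only [Set.mem_iUnion, Set.mem_univ, iff_true]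
        exact ⟨fun c => ⌊x c⌋, fun c => rfl⟩
      rw [this, Measure.restrict_univ]
    · intro s t hst
      refine Set.disjoint_left.2 fun x hs ht => hst ?_
      funext c
      rw [← hs c, ← ht c]
  have h3 : ∑' s : Ix m → ℤ, ENNReal.ofReal (Dn (fun c => (s c : ℝ)) ^ (-p)) < ⊤ := by
    refine lt_of_le_of_lt (ENNReal.tsum_le_tsum h1) ?_
    rw [h2, lintegral_const_mul _ (F_meas p)]
    exact ENNReal.mul_lt_top ENNReal.ofReal_lt_top (lint_Dn m p hp)
  have h4 := ENNReal.summable_toReal h3.ne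
  refine h4.congr fun s => ?_
  rw [ENNReal.toReal_ofReal]
  exact Real.rpow_nonneg (le_trans zero_le_one (one_le_Dn _)) _

theorem entry_le_Dn {m : ℕ} (x : Ix m → ℝ) (c : Ix m) : |x c| ≤ Dn x := by
  have h1 := entry_le (sym x) (sym_symm x) c.1.1 c.1.2
  have h2 : sym x c.1.1 c.1.2 = x c := by
    simp only [sym, Matrix.of_apply]
    congr 1
    ext1
    simp [min_eq_left c.2, max_eq_right c.2]
  rw [h2] at h1
  have h3 : 0 ≤ Dn x := le_trans zero_le_one (one_le_Dn x)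
  refine abs_le_of_sq_le_sq ?_ h3
  change 1 + x c ^ 2 ≤ Dn x ^ 2 at h1
  linarith

/-- (K4) -/
theorem sum_log (m : ℕ) : ∃ θ : ℝ, 0 < θ ∧ θ < 1 ∧
    Summable fun s : Ix m → ℤ => Dn (fun c => (s c : ℝ)) ^ (-(((m : ℝ) + 1) * θ))
      * ∏ c, (4 + Real.logb 2 (1 + |(s c : ℝ)|)) := by
  have hm : (0 : ℝ) ≤ m := Nat.cast_nonneg m
  refine ⟨((m : ℝ) + 3 / 4) / (m + 1), by positivity, ?_, ?_⟩
  · rw [div_lt_one (by positivity)]; linarith
  have h0 : -(((m : ℝ) + 1) * (((m : ℝ) + 3 / 4) / (m + 1))) = -((m : ℝ) + 3 / 4) := by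
    field_simp
  rw [h0]
  set N : ℝ := (Fintype.card (Ix m) : ℝ) + 1 with hN
  have hN0 : 0 < N := by positivity
  set δ : ℝ := 1 / (4 * N) with hδ
  have hδ0 : 0 < δ := by positivity
  have hl2 : 0 < Real.log 2 := Real.log_pos (by norm_num)
  set L : ℝ := 4 + 2 ^ δ / (δ * Real.log 2) with hL
  have hL0 : 0 < L := by positivity
  have hfac : ∀ (s : Ix m → ℤ) (c : Ix m), 4 + Real.logb 2 (1 + |(s c : ℝ)|)
      ≤ L * Dn (fun c => (s c : ℝ)) ^ δ := by
    intro s c
    have h1 := one_le_Dn (fun c => (s c : ℝ))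
    have h2 := entry_le_Dn (fun c => (s c : ℝ)) c
    have hD0 : 0 < Dn (fun c => (s c : ℝ)) := by linarith
    have h3 : Real.logb 2 (1 + |(s c : ℝ)|) ≤ (2 * Dn (fun c => (s c : ℝ))) ^ δ / (δ * Real.log 2) := by
      rw [Real.logb, div_le_div_iff₀ hl2 (by positivity)]
      have h4 : Real.log (1 + |(s c : ℝ)|) ≤ (1 + |(s c : ℝ)|) ^ δ / δ :=
        Real.log_le_rpow_div (by positivity) hδ0
      have h5 : (1 + |(s c : ℝ)|) ^ δ ≤ (2 * Dn (fun c => (s c : ℝ))) ^ δ :=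
        Real.rpow_le_rpow (by positivity) (by linarith) hδ0.le
      have h6 : Real.log (1 + |(s c : ℝ)|) * δ ≤ (2 * Dn (fun c => (s c : ℝ))) ^ δ := by
        have := mul_le_mul_of_nonneg_right h4 hδ0.le
        rw [div_mul_cancel₀ _ hδ0.ne'] at this
        exact this.trans h5
      calc Real.log (1 + |(s c : ℝ)|) * (δ * Real.log 2)
          = (Real.log (1 + |(s c : ℝ)|) * δ) * Real.log 2 := by ring
        _ ≤ _ := mul_le_mul_of_nonneg_right h6 hl2.le
    have h7 : (1 : ℝ) ≤ Dn (fun c => (s c : ℝ)) ^ δ := Real.one_le_rpow h1 hδ0.le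
    calc 4 + Real.logb 2 (1 + |(s c : ℝ)|)
        ≤ 4 * Dn (fun c => (s c : ℝ)) ^ δ
          + (2 * Dn (fun c => (s c : ℝ))) ^ δ / (δ * Real.log 2) := by linarith
      _ = L * Dn (fun c => (s c : ℝ)) ^ δ := by
          rw [Real.mul_rpow (by norm_num) hD0.le, hL]; ring
  have hsum := sum_Dn m ((m : ℝ) + 1 / 2) (by linarith)
  refine Summable.of_nonneg_of_le ?_ ?_ (hsum.mul_left (L ^ (Fintype.card (Ix m))))
  · intro s
    have hD0 : 0 ≤ Dn (fun c => (s c : ℝ)) := le_trans zero_le_one (one_le_Dn _)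
    refine mul_nonneg (Real.rpow_nonneg hD0 _) (Finset.prod_nonneg fun c _ => ?_)
    have : 0 ≤ Real.logb 2 (1 + |(s c : ℝ)|) :=
      Real.logb_nonneg (by norm_num) (by linarith [abs_nonneg (s c : ℝ)])
    linarith
  · intro s
    have h1 := one_le_Dn (fun c => (s c : ℝ))
    have hD0 : 0 < Dn (fun c => (s c : ℝ)) := by linarith
    have h2 : ∏ c, (4 + Real.logb 2 (1 + |(s c : ℝ)|))
        ≤ L ^ (Fintype.card (Ix m)) * Dn (fun c => (s c : ℝ)) ^ (1 / 4 : ℝ) := by
      calc ∏ c, (4 + Real.logb 2 (1 + |(s c : ℝ)|))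
          ≤ ∏ _c : Ix m, (L * Dn (fun c => (s c : ℝ)) ^ δ) := by
            refine Finset.prod_le_prod (fun c _ => ?_) (fun c _ => hfac s c)
            have : 0 ≤ Real.logb 2 (1 + |(s c : ℝ)|) :=
              Real.logb_nonneg (by norm_num) (by linarith [abs_nonneg (s c : ℝ)])
            linarith
        _ = L ^ (Fintype.card (Ix m)) * (Dn (fun c => (s c : ℝ)) ^ δ) ^ (Fintype.card (Ix m)) := by
            rw [Finset.prod_const, mul_pow]; rfl
        _ ≤ _ := by
            refine mul_le_mul_of_nonneg_left ?_ (by positivity)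
            rw [← Real.rpow_natCast, ← Real.rpow_mul hD0.le]
            refine Real.rpow_le_rpow_of_exponent_le h1 ?_
            rw [hδ, hN]
            have hc : (0 : ℝ) ≤ (Fintype.card (Ix m) : ℝ) := Nat.cast_nonneg _
            rw [div_mul_eq_mul_div, one_mul, div_le_div_iff₀ (by positivity) (by norm_num)]
            linarith
    calc Dn (fun c => (s c : ℝ)) ^ (-((m : ℝ) + 3 / 4))
          * ∏ c, (4 + Real.logb 2 (1 + |(s c : ℝ)|))
        ≤ Dn (fun c => (s c : ℝ)) ^ (-((m : ℝ) + 3 / 4))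
          * (L ^ (Fintype.card (Ix m)) * Dn (fun c => (s c : ℝ)) ^ (1 / 4 : ℝ)) :=
          mul_le_mul_of_nonneg_left h2 (by positivity)
      _ = L ^ (Fintype.card (Ix m)) * Dn (fun c => (s c : ℝ)) ^ (-((m : ℝ) + 1 / 2)) := by
          have : Dn (fun c => (s c : ℝ)) ^ (-((m : ℝ) + 1 / 2))
              = Dn (fun c => (s c : ℝ)) ^ (-((m : ℝ) + 3 / 4))
                * Dn (fun c => (s c : ℝ)) ^ (1 / 4 : ℝ) := by
            rw [← Real.rpow_add hD0]; congr 1; ring
          rw [this]; ring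

end Zyg
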